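import Pool.Agent.Helper28.TK.StW

/-!
# Assembly over `ℤ_p`, project TH
-/

set_option autoImplicit false

namespace Pool.Agent.Helper28.TKW

open Pool.Agent.Helper14.CV (Homog EqC act)
open Pool.Agent.Helper28.WK Pool.Agent.Helper28.TK
open Pool.Agent.Helper28.TK

theorem hZpH (la : SHLa) (lb : SHLb2) (ui : UIpH) (pol : SHPol) (gr : GrH) (cc : SHCC) (g5 : SHG5)
    (w1 : SHW1) (w2 : SHW2) (w3 : SHW3) (w4 : SHW4) (p : ℕ) (hp : Fact p.Prime) (κ : ℤ) (hp2 : p ≠ 3)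
    (hκ : κ ≠ 0) (hTA : TAH p κ) (a ν : ℕ) (Φ : ℤ → ℤ → ℕ → ℤ_[p]) (hν : 1 ≤ ν) (hW : WSymH p a ν Φ) :
    EqC (cp Φ a) 0 := by
  have hG : ∀ M : ℕ, 3 ≤ M → SymH p M (M + ν) (redP M (cp Φ a)) :=
    fun M hM => w1 p hp a ν Φ hp2 hW M (by omega)
  obtain ⟨ψ, hψ1, hψ2, hψ3⟩ := lb la ui p hp κ hp2 hTA ν (cp Φ a) (hW.hom a (by omega)) hG hW.fr
    hW.st (fun M hM ls hls => w4 p hp a ν Φ hW M (by omega) ls hls)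
  obtain ⟨hb, hc⟩ := w2 p hp a ν Φ hW
  obtain ⟨hb', hc'⟩ := pol p hp (2 * κ) a ν (cp Φ a) ψ hp2 (hW.hom a (by omega)) hψ1 hψ2 hψ3 hb hc
  exact g5 gr cc p hp (2 * κ) a ν (cp Φ a) ψ (mul_ne_zero (by norm_num) hκ) hν hG hψ2 hb' hc'
    (w3 p hp a ν Φ hW)

end Pool.Agent.Helper28.TKW
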