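import Pool.Agent.Helper28.TKW.M_BrgH
import Pool.Agent.Helper28.TKW.M_W2
import Pool.Agent.Helper28.TKW.M_Zp
import Pool.Agent.Helper38.CV.M_Far
import Pool.Agent.Helper2.WK.M_Pl1
import Pool.Agent.Helper57.TKW.M_UIp
import Pool.Agent.Helper8.TKW.M_La
import Pool.Agent.Helper3.TKW.M_Lb2
import Pool.Agent.Helper28.TKW.M_Pol
import Pool.Agent.Helper63.TKW.M_Gp
import Pool.Agent.Helper61.TKW.M_Gr
import Pool.Agent.Helper74.TKW.M_CC
import Pool.Agent.Helper28.TKW.M_G5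
import Pool.Agent.Helper5.TKW.M_W1
import Pool.Agent.Helper28.TKW.M_W3
import Pool.Agent.Helper28.TKW.M_W4
import Pool.Agent.Helper67.TKW.M_Map
import Pool.Agent.Helper28.TKW.M_Den
import Pool.Agent.Helper28.TKW.M_QC
import Pool.Agent.Helper73.TKW.M_All
import Pool.Agent.Helper42.TKW.M_Tr

/-!
# Theorem A for the symbols of the extended group and the prime `p` implies nonvanishing, levels `3 p^n`, `n ≥ 3`, weights `≥ 4`, `f | W_3 = f`
-/

set_option autoImplicit false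

namespace Pool.Agent.Helper28.TKW

open Pool.Agent.Helper14.CV (G0 Homog EqC act)
open Pool.Agent.Helper14.WK
open Pool.Agent.Helper28.WK Pool.Agent.Helper28.TK
open Pool.Agent.Helper28.TH (OkH ALPlus)
open Pool.Agent.Helper28.TL (IsNewN)

/-- The central component of a symbol as in `WSymH` is constant. -/
theorem centerH (p : ℕ) (hp : p.Prime) (hp2 : p ≠ 3) (κ : ℤ) (hκ : κ ≠ 0) (hTA : TAH p κ) (a ν : ℕ)
    (Φ : ℤ → ℤ → ℕ → ℂ) (hν : 1 ≤ ν) (hW : WSymH p a ν Φ) : EqC (cp Φ a) 0 :=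
  Pool.Agent.Helper28.TKW.hQC Pool.Agent.Helper38.CV.hFar Pool.Agent.Helper67.TKW.hMap
    Pool.Agent.Helper28.TKW.hDen p ⟨hp⟩ a ν
    (fun Ψ hΨ => hZpH Pool.Agent.Helper8.TKW.hLa Pool.Agent.Helper3.TKW.hLb2
      Pool.Agent.Helper57.TKW.hUIp
      Pool.Agent.Helper28.TKW.hPol
      (Pool.Agent.Helper61.TKW.hGr Pool.Agent.Helper63.TKW.hGp Pool.Agent.Helper2.WK.hPl1)
      Pool.Agent.Helper74.TKW.hCC Pool.Agent.Helper28.TKW.hG5 Pool.Agent.Helper5.TKW.hW1 hW2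
      Pool.Agent.Helper28.TKW.hW3 Pool.Agent.Helper28.TKW.hW4 p ⟨hp⟩ κ hp2 hκ hTA a ν Ψ hν hΨ)
    Φ hW

/-- Theorem A for the prime `p ≠ 3` implies: the central values of the newforms `f` of weight
`2A+2 ≥ 4`, level `3 p^n`, `n ≥ 3`, with `f | W_3 = f` and root number `+1` are not zero. -/
theorem genH (p : ℕ) (hp : p.Prime) (hp2 : p ≠ 3) (κ : ℤ) (hκ : κ ≠ 0) (hTA : TAH p κ)
    (A n : ℕ) (hA : 1 ≤ A) (hn : 3 ≤ n) (hne : NeZero (3 * p ^ n)) (hk : 0 < (2 * A + 2 : ℤ))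
    (f : CuspForm (G0 (3 * p ^ n)) (2 * A + 2)) (hf : IsNewN f) (hal : ALPlus 3 (p ^ n) f)
    (hε : RootOneK hk f) : LanK hk f (1 / 2) ≠ 0 := by
  obtain ⟨ν, rfl⟩ : ∃ ν, n = ν + 2 := ⟨n - 2, by omega⟩
  exact hFinH Pool.Agent.Helper42.TKW.hTr Pool.Agent.Helper73.TKW.hAll p hp hp2 A ν hA
    (fun Φ hW => centerH p hp hp2 κ hκ hTA A ν Φ (by omega) hW) hne hk f hf hal hε

end Pool.Agent.Helper28.TKW
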