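import Pool.Agent.Helper28.TK.StW

/-!
# Project TH, all weights, module G5: the contradiction
-/

set_option autoImplicit false

namespace Pool.Agent.Helper28.TKW

open Pool.Agent.Helper28.TH (OkH ALPlus)

open Pool.Agent.Helper28.TK Pool.Agent.Helper28.WK Pool.Agent.Helper28.TK Pool.Agent.Helper14.CV
open Pool.Agent.Helper4.TL (OkE)

private lemma nz1 {v1 v2 x k : ℤ} (h : v1 ≠ 0 ∨ v2 ≠ 0) :
    v1 + x * v2 ≠ 0 ∨ k * (v1 + x * v2) + v2 ≠ 0 := by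
  by_contra hc
  push Not at hc
  obtain ⟨h1, h2⟩ := hc
  rw [h1, mul_zero, zero_add] at h2
  rw [h2, mul_zero, add_zero] at h1
  exact h.elim (fun h => h h1) (fun h => h h2)

private lemma nz1' {v1 v2 x : ℤ} (h : v1 ≠ 0 ∨ v2 ≠ 0) : v1 + x * v2 ≠ 0 ∨ v2 ≠ 0 := by
  have := nz1 (x := x) (k := 0) h
  simpa using this

private lemma nz2 {v1 v2 k b : ℤ} (h : v1 ≠ 0 ∨ v2 ≠ 0) :
    v1 + b * (k * v1 + v2) ≠ 0 ∨ k * v1 + v2 ≠ 0 := by
  by_contra hc
  push Not at hc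
  obtain ⟨h1, h2⟩ := hc
  rw [h2, mul_zero, add_zero] at h1
  rw [h1, mul_zero, zero_add] at h2
  exact h.elim (fun h => h h1) (fun h => h h2)

private lemma nz2' {v1 v2 k : ℤ} (h : v1 ≠ 0 ∨ v2 ≠ 0) : v1 ≠ 0 ∨ k * v1 + v2 ≠ 0 := by
  have := nz2 (k := k) (b := 0) h
  simpa using this

private lemma dvd_of_red {p : ℕ} [Fact p.Prime] {L : ℕ} {A B : ℤ_[p]}
    (h : PadicInt.toZModPow L A = PadicInt.toZModPow L B) : (p : ℤ_[p]) ^ L ∣ A - B := by
  have h1 : A - B ∈ RingHom.ker (PadicInt.toZModPow (p := p) L) := by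
    rw [RingHom.mem_ker, map_sub, h, sub_self]
  rw [PadicInt.ker_toZModPow] at h1
  exact Ideal.mem_span_singleton.1 h1

private lemma zero_diff {R : Type} [AddCommGroup R] {X : ℤ → ℤ → R} (h : EqC X 0)
    {w1 w2 v1 v2 : ℤ} (hw : w1 ≠ 0 ∨ w2 ≠ 0) (hv : v1 ≠ 0 ∨ v2 ≠ 0) :
    X w1 w2 - X v1 v2 = 0 := by
  obtain ⟨c, hc⟩ := h
  rw [hc w1 w2 hw, hc v1 v2 hv]
  simp

/-- G5 -/
theorem hG5 : SHG5 := by
  intro hGr hCC p hp κ a ν G ψ hκ hν hG hψ hNb hNc hQ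
  have key : ∀ v1 v2 w1 w2 : ℤ, (v1 ≠ 0 ∨ v2 ≠ 0) → (w1 ≠ 0 ∨ w2 ≠ 0) →
      G w1 w2 = G v1 v2 := by
    intro v1 v2 w1 w2 hv hw
    have h := hGr p hp κ a ν
      (fun x c => ψ (w1 + x * w2) (3 * (p : ℤ) ^ ν * c * (w1 + x * w2) + w2) -
        ψ (v1 + x * v2) (3 * (p : ℤ) ^ ν * c * (v1 + x * v2) + v2))
      (fun y b => ψ (w1 + b * (3 * (p : ℤ) ^ ν * y * w1 + w2)) (3 * (p : ℤ) ^ ν * y * w1 + w2) -
        ψ (v1 + b * (3 * (p : ℤ) ^ ν * y * v1 + v2)) (3 * (p : ℤ) ^ ν * y * v1 + v2))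
      (fun x c => G (w1 + x * w2) (3 * (p : ℤ) ^ ν * c * (w1 + x * w2) + w2) -
        G (v1 + x * v2) (3 * (p : ℤ) ^ ν * c * (v1 + x * v2) + v2))
      (fun y b => G (w1 + b * (3 * (p : ℤ) ^ ν * y * w1 + w2)) (3 * (p : ℤ) ^ ν * y * w1 + w2) -
        G (v1 + b * (3 * (p : ℤ) ^ ν * y * v1 + v2)) (3 * (p : ℤ) ^ ν * y * v1 + v2))
      hκ hν ?_ ?_ ?_ ?_ ?_
    · simp only [zero_mul, add_zero, mul_zero, zero_add] at h
      exact sub_eq_zero.1 h
    · -- Fc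
      intro x c
      have h1 := zero_diff (hNc (3 * (p : ℤ) ^ ν) dvd_rfl)
        (nz1 (x := x) (k := 3 * (p : ℤ) ^ ν * c) hw)
        (nz1 (x := x) (k := 3 * (p : ℤ) ^ ν * c) hv)
      rw [← h1]
      simp only [Nc]
      rw [← Finset.sum_sub_distrib]
      refine Finset.sum_congr rfl fun j _ => ?_
      rw [← smul_sub]
      congr 2
      · congr 1
        ring
      · congr 1
        ring
    · -- Fb + kappa Hb
      intro y b
      have h1 := zero_diff (hNb 1)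
        (nz2 (k := 3 * (p : ℤ) ^ ν * y) (b := b) hw) (nz2 (k := 3 * (p : ℤ) ^ ν * y) (b := b) hv)
      rw [← h1]
      simp only [Nb]
      rw [← Finset.sum_sub_distrib]
      refine Finset.sum_congr rfl fun j _ => ?_
      rw [← smul_sub]
      congr 1
      simp only [Pi.add_apply, Pi.smul_apply]
      have e1 : w1 + (b + (j : ℤ)) * (3 * (p : ℤ) ^ ν * y * w1 + w2) =
          w1 + b * (3 * (p : ℤ) ^ ν * y * w1 + w2) + j * 1 * (3 * (p : ℤ) ^ ν * y * w1 + w2) := by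
        ring
      have e2 : v1 + (b + (j : ℤ)) * (3 * (p : ℤ) ^ ν * y * v1 + v2) =
          v1 + b * (3 * (p : ℤ) ^ ν * y * v1 + v2) + j * 1 * (3 * (p : ℤ) ^ ν * y * v1 + v2) := by
        ring
      rw [e1, e2]
      simp only [zsmul_eq_mul]
      push_cast
      ring
    · intro x
      exact (hQ _ _ _ _ (nz1' (x := x) hv) (nz1' (x := x) hw)).2
    · intro y
      exact (hQ _ _ _ _ (nz2' (k := 3 * (p : ℤ) ^ ν * y) hv)
        (nz2' (k := 3 * (p : ℤ) ^ ν * y) hw)).1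
    · intro L x y c b hL hc hb
      have hψ' : SymH p L (L + ν) (redP L ψ) := by
        obtain ⟨h1, h2⟩ := hψ L hL
        refine ⟨h1, fun a b c d hd hb hc => h2 a b c d hd hb ?_⟩
        exact (pow_dvd_pow _ (by omega)).trans hc
      have k1 := hCC p ν L (ZMod (p ^ L)) inferInstance (redP L ψ) hψ' x y c b v1 v2 w1 w2
        hv hw hc hb
      have k2 := hCC p ν L (ZMod (p ^ L)) inferInstance (redP L G) (hG L hL) x y c b v1 v2 w1 w2
        hv hw hc hb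
      simp only [redP] at k1 k2
      refine ⟨dvd_of_red ?_, dvd_of_red ?_⟩
      · rw [map_sub, map_sub]
        exact k1
      · rw [map_sub, map_sub]
        exact k2
  refine ⟨G 1 0, fun x y hxy => ?_⟩
  rw [key 1 0 x y (Or.inl one_ne_zero) hxy]
  simp

end Pool.Agent.Helper28.TKW
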